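import Pool.Agent.H500.ZO.Stm

set_option autoImplicit false

namespace Pool.Agent.H825.ZO.ZL

open NumberField IsDedekindDomain Polynomial
open Pool.Agent.W401.Cheb (GK IsFrob IsInert)
open Pool.Agent.H500.HC (QBar ZBar)
open Pool.Agent.H500.R2 (UnrOut)
open Pool.Agent.H500.SV (Fld)

/-- a nonzero maximal ideal is the kernel of a map to a field of positive characteristic -/
theorem char_pos {E : Type} [Field E] [NumberField E] (lam : HeightOneSpectrum (𝓞 E)) {k : Type}
    [Field k] (φ : 𝓞 E →+* k) (h : RingHom.ker φ = lam.asIdeal) :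
    ∃ l : ℕ, l.Prime ∧ CharP k l := by
  obtain ⟨l, hl⟩ := CharP.exists k
  refine ⟨l, ?_, hl⟩
  rcases CharP.char_is_prime_or_zero k l with h1 | h1
  · exact h1
  · exfalso
    subst h1
    have : CharZero k := CharP.charP_to_charZero k
    have h2 : (((Ideal.absNorm lam.asIdeal : ℕ)) : 𝓞 E) ∈ lam.asIdeal :=
      Ideal.absNorm_mem lam.asIdeal
    have h4 : φ (((Ideal.absNorm lam.asIdeal : ℕ)) : 𝓞 E) = 0 := by
      rw [← RingHom.mem_ker, h]; exact h2
    rw [map_natCast] at h4
    have h3 : Ideal.absNorm lam.asIdeal = 0 := by exact_mod_cast h4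
    rw [Ideal.absNorm_eq_zero_iff] at h3
    exact lam.ne_bot h3

/-- an invertible matrix with characteristic polynomial `(X-1)^n` in characteristic `l` has `l`-power
order -/
theorem pow_eq_one {k : Type} [Field k] {l n : ℕ} (hl : l.Prime) [CharP k l] (g : GL (Fin n) k)
    (hg : (g : Matrix (Fin n) (Fin n) k).charpoly = (X - 1) ^ n) : ∃ m, g ^ l ^ m = 1 := by
  have : Fact l.Prime := ⟨hl⟩
  rcases Nat.eq_zero_or_pos n with h0 | h0
  · subst h0
    exact ⟨0, Subsingleton.elim _ _⟩
  · have : Nonempty (Fin n) := ⟨⟨0, h0⟩⟩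
    have : CharP (Matrix (Fin n) (Fin n) k) l := inferInstance
    refine ⟨n, ?_⟩
    have h1 : ((g : Matrix (Fin n) (Fin n) k) - 1) ^ n = 0 := by
      have h2 := Matrix.aeval_self_charpoly (g : Matrix (Fin n) (Fin n) k)
      rw [hg, map_pow, map_sub, aeval_X, map_one] at h2
      exact h2
    have h3 : ((g : Matrix (Fin n) (Fin n) k) - 1) ^ l ^ n = 0 :=
      pow_eq_zero_of_le (Nat.lt_pow_self hl.one_lt).le h1
    rw [sub_pow_char_pow_of_commute l n (Commute.one_right _), one_pow, sub_eq_zero] at h3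
    apply Units.ext
    rw [Units.val_pow_eq_pow_val, h3, Units.val_one]

theorem solv_of {G G' A : Type} [Group G] [Group G'] [Group A] (ι : G' →* G) (ρ : G →* A)
    (r : ℕ) (hr : derivedSeries G r ≤ ι.range)
    (hH : Group.IsSolvable (((commutator G').map ι).map ρ)) : Group.IsSolvable ρ.range := by
  set H : Subgroup A := ((commutator G').map ι).map ρ with hHd
  obtain ⟨s, hs⟩ := hH.solvable
  have h1 : ∀ j, (derivedSeries G (r + 1 + j)).map ρ ≤ (derivedSeries H j).map H.subtype := by
    intro j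
    induction j with
    | zero =>
      have h2 : derivedSeries G (r + 1) ≤ (commutator G').map ι := by
        rw [derivedSeries_succ, commutator_def, Subgroup.map_commutator]
        have h3 : derivedSeries G r ≤ (⊤ : Subgroup G').map ι := by
          rw [← MonoidHom.range_eq_map]; exact hr
        exact Subgroup.commutator_mono h3 h3
      rw [derivedSeries_zero, ← MonoidHom.range_eq_map, Subgroup.range_subtype]
      exact Subgroup.map_mono h2
    | succ j ih =>
      rw [← Nat.add_assoc, derivedSeries_succ, derivedSeries_succ, Subgroup.map_commutator,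
        Subgroup.map_commutator]
      exact Subgroup.commutator_mono ih ih
  have h4 : (derivedSeries G (r + 1 + s)).map ρ = ⊥ := by
    have := h1 s
    rw [hs, Subgroup.map_bot] at this
    exact le_bot_iff.mp this
  refine ⟨⟨r + 1 + s, ?_⟩⟩
  rw [← map_derivedSeries_eq ρ.rangeRestrict_surjective, Subgroup.map_eq_bot_iff,
    MonoidHom.ker_rangeRestrict]
  exact (Subgroup.map_eq_bot_iff _).mp h4

theorem main : Pool.Agent.H500.ZO.S_UNI → Pool.Agent.H500.ZO.S_ZL := by
  intro hU K E _ _ _ _ j N n P U L _ _ _ ι e t ψ hN hP lam k _ φ ρ hφ hρ hch hun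
  have h1 := hU K E j N n P U L ι e t ψ hN hP lam k φ ρ hφ hρ hch hun
  obtain ⟨r, hr⟩ := hP.solv
  have hr' : derivedSeries (GK K) r ≤ ι.range := by
    rw [hP.fld.range]; exact hr
  refine solv_of ι ρ r hr' ?_
  obtain ⟨l, hl, hc⟩ := char_pos lam φ hφ
  have : Fact l.Prime := ⟨hl⟩
  have hfin : Finite (GK K ⧸ ρ.ker) := Subgroup.quotient_finite_of_isOpen ρ.ker hρ
  have hfr : Finite ρ.range :=
    Finite.of_equiv _ (QuotientGroup.quotientKerEquivRange ρ).toEquiv
  have hle : ((commutator (GK L)).map ι).map ρ ≤ ρ.range := by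
    rw [MonoidHom.range_eq_map]
    exact Subgroup.map_mono le_top
  have hfH : Finite (((commutator (GK L)).map ι).map ρ) :=
    Finite.of_injective _ (Subgroup.inclusion_injective hle)
  have hpg : IsPGroup l (((commutator (GK L)).map ι).map ρ) := by
    rintro ⟨g, hg⟩
    obtain ⟨y, hy, rfl⟩ := hg
    obtain ⟨c, hc', rfl⟩ := hy
    obtain ⟨m, hm⟩ := pow_eq_one hl (ρ (ι c)) (h1 c hc')
    exact ⟨m, Subtype.ext hm⟩
  have := hpg.isNilpotent
  infer_instance

end Pool.Agent.H825.ZO.ZL
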